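import Pool.Agent.helper47.SC.Spec

/-! Row sc:FRO: the boundary of the domain `Ω`. -/

open scoped Topology ContDiff
open Set Filter Metric MeasureTheory

namespace Pool.Agent.SC

theorem FRO (h1 : QSM_stmt) (h2 : QTT_stmt) (h3 : VSM_stmt) (h4 : VQQ_stmt) (h5 : SHR_stmt)
    (h6 : OMC_stmt) (h7 : NSQ_stmt) : FRO_stmt := by
  intro s D T m g₁ g₂ hD hM hX hg₁ hg₂ hblow z hz
  have hm : ∀ k, 10 ≤ m k := hM.1
  have hs : ∀ i, nsq (s i) ≤ 1 / 64 := fun i => hD.small _ (hD.mem i)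
  obtain ⟨-, hnc, -, -, -, hn0, -, hn1, hn2, hn3, -, -⟩ := h7
  obtain ⟨hOo, -, -⟩ := h6 s m g₁ g₂ hm hs hX hg₁ hg₂
  -- facts on `Ω`
  have hA : ∀ w ∈ Om s m g₁ g₂, (w.1, w.2.1) ∈ XX s m ∧ nsq (Psi g₁ g₂ w).2 ≤ 529 / 10000 ∧
      ∃ k, QQ s m k (Psi g₁ g₂ w) < Real.exp 3 := by
    intro w hw
    obtain ⟨a, b, k, hk⟩ := hw
    exact ⟨a, h1 s m hm hs k _ hk, k, hk⟩
  have hB : ∀ w ∈ Om s m g₁ g₂, ‖w.2.1‖ ≤ 23 / 100 ∧ ‖w.2.2.1 - g₁ (w.1, w.2.1)‖ ≤ 1 ∧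
      ‖w.2.2.2 - g₂ (w.1, w.2.1)‖ ≤ 1 := by
    intro w hw
    obtain ⟨-, b, -⟩ := hA w hw
    have c1 : ‖w.2.1‖ ^ 2 ≤ nsq (Psi g₁ g₂ w).2 := hn1 (Psi g₁ g₂ w).2
    have c2 : ‖w.2.2.1 - g₁ (w.1, w.2.1)‖ ^ 2 ≤ nsq (Psi g₁ g₂ w).2 := hn2 (Psi g₁ g₂ w).2
    have c3 : ‖w.2.2.2 - g₂ (w.1, w.2.1)‖ ^ 2 ≤ nsq (Psi g₁ g₂ w).2 := hn3 (Psi g₁ g₂ w).2
    refine ⟨?_, ?_, ?_⟩
    · apply le_of_sq_le_sq _ (by norm_num)
      linarith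
    · apply le_of_sq_le_sq _ (by norm_num)
      linarith
    · apply le_of_sq_le_sq _ (by norm_num)
      linarith
  have hzc : z ∈ closure (Om s m g₁ g₂) := frontier_subset_closure hz
  have hzn : z ∉ Om s m g₁ g₂ := by
    rw [hOo.frontier_eq] at hz
    exact hz.2
  have hfr : ∃ᶠ w in 𝓝 z, w ∈ Om s m g₁ g₂ := mem_closure_iff_frequently.mp hzc
  have hz23 : ‖z.2.1‖ ≤ 23 / 100 := by
    have hcl : IsClosed {w : C4 | ‖w.2.1‖ ≤ 23 / 100} :=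
      isClosed_le (by fun_prop) continuous_const
    exact closure_minimal (fun w hw => (hB w hw).1) hcl hzc
  -- Step 2
  have hzX : (z.1, z.2.1) ∈ XX s m := by
    by_contra hcon
    have hev := hblow (z.1, z.2.1) (by
      have : ‖((z.1, z.2.1) : C2).2‖ = ‖z.2.1‖ := rfl
      rw [this]; linarith) hcon (‖z.2.2.1‖ + ‖z.2.2.2‖ + 3)
    have hct : Tendsto (fun w : C4 => ((w.1, w.2.1) : C2)) (𝓝 z) (𝓝 (z.1, z.2.1)) := by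
      have : Continuous (fun w : C4 => ((w.1, w.2.1) : C2)) := by fun_prop
      exact this.tendsto z
    have hev1 := hct.eventually hev
    have hev2 : ∀ᶠ w : C4 in 𝓝 z, ‖w.2.2.1‖ < ‖z.2.2.1‖ + 1 := by
      have hc : Continuous (fun w : C4 => ‖w.2.2.1‖) := by fun_prop
      exact (hc.tendsto z).eventually (gt_mem_nhds (lt_add_one _))
    have hev3 : ∀ᶠ w : C4 in 𝓝 z, ‖w.2.2.2‖ < ‖z.2.2.2‖ + 1 := by
      have hc : Continuous (fun w : C4 => ‖w.2.2.2‖) := by fun_prop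
      exact (hc.tendsto z).eventually (gt_mem_nhds (lt_add_one _))
    obtain ⟨w, hw, e1, e2, e3⟩ := (hfr.and_eventually (hev1.and (hev2.and hev3))).exists
    obtain ⟨-, b2, b3⟩ := hB w hw
    have n1 : ‖g₁ (w.1, w.2.1)‖ ≤ ‖w.2.2.1‖ + ‖w.2.2.1 - g₁ (w.1, w.2.1)‖ := by
      have := norm_sub_le w.2.2.1 (w.2.2.1 - g₁ (w.1, w.2.1))
      rwa [sub_sub_cancel] at this
    have n2 : ‖g₂ (w.1, w.2.1)‖ ≤ ‖w.2.2.2‖ + ‖w.2.2.2 - g₂ (w.1, w.2.1)‖ := by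
      have := norm_sub_le w.2.2.2 (w.2.2.2 - g₂ (w.1, w.2.1))
      rwa [sub_sub_cancel] at this
    have z1 := norm_nonneg z.2.2.1
    have z2 := norm_nonneg z.2.2.2
    rcases e1 (hA w hw).1 with h | h
    · linarith
    · linarith
  -- Step 3
  obtain ⟨-, -, hsh⟩ := h5 g₁ g₂
  obtain ⟨hXo, -, hPs⟩ := hsh (XX s m) hX hg₁ hg₂
  have hPc : Tendsto (Psi g₁ g₂) (𝓝 z) (𝓝 (Psi g₁ g₂ z)) :=
    (hPs.continuousOn.continuousAt (hXo.mem_nhds hzX)).tendsto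
  have hns : nsq (Psi g₁ g₂ z).2 ≤ 529 / 10000 := by
    have hcl : IsClosed {q : C4 | nsq q.2 ≤ 529 / 10000} :=
      isClosed_le (hnc.comp continuous_snd) continuous_const
    exact hcl.mem_of_frequently_of_tendsto (hfr.mono (fun w hw => (hA w hw).2.1)) hPc
  have hns4 : nsq (Psi g₁ g₂ z).2 < 1 / 4 := by linarith
  have hzT : (Psi g₁ g₂ z).2 ∉ T := by
    intro ht
    obtain ⟨k, hk⟩ := h2 s D T m hD hM _ ht z.1 hzX
    exact hzn ⟨hzX, hns4, k, hk⟩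
  have hzO : Psi g₁ g₂ z ∈ OO T := ⟨hns4, hzT⟩
  refine ⟨hzX, hzO, ?_⟩
  obtain ⟨hOOo, hVs, -⟩ := h3 s D T m hD hm
  have hVc : Tendsto (fun w => VV s m (Psi g₁ g₂ w)) (𝓝 z) (𝓝 (VV s m (Psi g₁ g₂ z))) :=
    (hVs.continuousOn.continuousAt (hOOo.mem_nhds hzO)).tendsto.comp hPc
  have hevO : ∀ᶠ w in 𝓝 z, Psi g₁ g₂ w ∈ OO T := hPc.eventually (hOOo.mem_nhds hzO)
  have hle : VV s m (Psi g₁ g₂ z) ≤ 0 := by
    have hcl : IsClosed {r : ℝ | r ≤ 0} := isClosed_le continuous_id continuous_const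
    refine hcl.mem_of_frequently_of_tendsto ?_ hVc
    refine (hfr.and_eventually hevO).mono ?_
    rintro w ⟨hw, hwO⟩
    exact ((h4 s D T m hD hm _ hwO).mpr (hA w hw).2.2).le
  rcases hle.lt_or_eq with hlt | heq
  · obtain ⟨k, hk⟩ := (h4 s D T m hD hm _ hzO).mp hlt
    exact absurd (⟨hzX, hns4, k, hk⟩ : Psi g₁ g₂ z ∈ YY s m) hzn
  · exact heq

end Pool.Agent.SC
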